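import Pool.Agent.H11.KT.Targets

/-!
# KT board, K_GS: lifting from `G / M` to `G`
-/

set_option autoImplicit false

open scoped commutatorElement

namespace Pool.Agent.H60.KT

open Pool.Agent.H11.EL Pool.Agent.H11.KT

theorem map_closure_en {G : Type} [Group G] (R : Subgroup G) [R.Normal] (n : ℕ)
    (t : ℕ → G) (M : Subgroup G) (h : Subgroup.closure (en n t ∪ M) = ⊤) :
    Subgroup.closure (en n (fun i => QuotientGroup.mk' R (t i)) ∪
      (M.map (QuotientGroup.mk' R) : Subgroup (G ⧸ R))) = ⊤ := by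
  have h1 := congrArg (Subgroup.map (QuotientGroup.mk' R)) h
  rw [MonoidHom.map_closure, Set.image_union, en_map,
    Subgroup.map_top_of_surjective _ (QuotientGroup.mk'_surjective R)] at h1
  exact h1

theorem comap_closure_en {G : Type} [Group G] (R Z : Subgroup G) [R.Normal] (hR : R ≤ Z)
    (n : ℕ) (t : ℕ → G)
    (h : Subgroup.closure (en n (fun i => QuotientGroup.mk' R (t i)) ∪
      (Z.map (QuotientGroup.mk' R) : Subgroup (G ⧸ R))) = ⊤) :
    Subgroup.closure (en n t ∪ Z) = ⊤ := by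
  have h1 : (Subgroup.closure (en n t ∪ Z)).map (QuotientGroup.mk' R) = ⊤ := by
    rw [MonoidHom.map_closure, Set.image_union, en_map]
    exact h
  have h2 : R ≤ Subgroup.closure (en n t ∪ Z) :=
    hR.trans fun z hz => Subgroup.subset_closure (Or.inr hz)
  have h3 := congrArg (Subgroup.comap (QuotientGroup.mk' R)) h1
  rw [Subgroup.comap_map_eq, QuotientGroup.ker_mk', sup_eq_left.2 h2, Subgroup.comap_top] at h3
  exact h3

theorem pf_GS (hFR : T_FR) (hCQ : T_CQ) (hLN : K_LN) (hLL : K_LL) (hQT : K_QT) : K_GS := by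
  intro G _ _ M Z hCF d s hs n t hgen hcount κ hκ
  have hle : Z ≤ M := hCF.lt.le
  have nZ := hCF.nZ
  have nM := hCF.nM
  let R : Subgroup G := ⁅Z, (⊤ : Subgroup G)⁆
  have hRZ : R ≤ Z := Subgroup.commutator_le_left Z ⊤
  have hq := QuotientGroup.mk'_surjective R
  have hCF' := hCQ G M Z R hCF hRZ
  have hcent : ∀ z ∈ Z.map (QuotientGroup.mk' R), ∀ g : G ⧸ R, z * g = g * z := by
    rintro _ ⟨z, hz, rfl⟩ g
    obtain ⟨g, rfl⟩ := hq g
    rw [← map_mul, ← map_mul]
    change QuotientGroup.mk' R (z * g) = QuotientGroup.mk' R (g * z)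
    have h : ⁅z, g⁆ ∈ R := Subgroup.commutator_mem_commutator hz (Subgroup.mem_top g)
    have h' : QuotientGroup.mk' R ⁅z, g⁆ = 1 := (QuotientGroup.eq_one_iff _).2 h
    rw [map_commutatorElement, commutatorElement_eq_one_iff_mul_comm] at h'
    rw [map_mul, map_mul]; exact h'
  have hs' : Subgroup.closure (Set.range fun j => QuotientGroup.mk' R (s j)) = ⊤ := by
    have h1 := congrArg (Subgroup.map (QuotientGroup.mk' R)) hs
    rw [MonoidHom.map_closure, Subgroup.map_top_of_surjective _ hq, ← Set.range_comp] at h1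
    exact h1
  -- the counting hypothesis in the quotient
  obtain ⟨q1, q2, q3⟩ := hQT G M Z R hRZ hle n t
  have hR0 : 0 < Nat.card R ^ n := Nat.pow_pos Nat.card_pos
  have hcount' : Nat.card {u : Fin n → M.map (QuotientGroup.mk' R) // ∀ i : Fin n,
      ⁅((u i : M.map (QuotientGroup.mk' R)) : G ⧸ R), QuotientGroup.mk' R (t i)⁆ ∈
        Z.map (QuotientGroup.mk' R)} *
      (Z.map (QuotientGroup.mk' R)).relIndex (M.map (QuotientGroup.mk' R)) ^ (2 * (d + 3)) ≤
        Nat.card (M.map (QuotientGroup.mk' R)) ^ n := by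
    rw [q1, q2, mul_pow, mul_assoc] at hcount
    rw [q3]
    exact Nat.le_of_mul_le_mul_left hcount hR0
  obtain ⟨x', hx', hT, hcl⟩ := hLL (G ⧸ R) (M.map (QuotientGroup.mk' R))
    (Z.map (QuotientGroup.mk' R)) hCF' hcent d (fun j => QuotientGroup.mk' R (s j)) hs' n
    (fun i => QuotientGroup.mk' R (t i)) (map_closure_en R n t M hgen) hcount'
    (QuotientGroup.mk' R κ) ⟨κ, hκ, rfl⟩
  choose x hx hxx using hx'
  have ex : x' = fun i => QuotientGroup.mk' R (x i) := funext fun i => (hxx i).symm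
  subst ex
  rw [← Ps_map] at hT
  have hcl1 : Subgroup.closure (en n (cj t x) ∪ Z) = ⊤ := by
    apply comap_closure_en R Z hRZ
    rw [cj_map]
    exact hcl
  have hcl2 := hFR G M Z hCF _ hcl1
  have hρ : κ * (Ps n t x)⁻¹ ∈ R := by
    rw [← QuotientGroup.eq_one_iff]
    change QuotientGroup.mk' R _ = 1
    rw [map_mul, map_inv, hT, mul_inv_cancel]
  obtain ⟨z, hz, hzκ⟩ := hLN G Z Z nZ
    (fun x hx y hy => hCF.zM x hx y (hle hy)) (fun x hx y hy => hCF.zM x hx y (hle hy))
    n (cj t x) hcl1 _ hρ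
  refine ⟨fun i => z i * x i, fun i => M.mul_mem (hle (hz i)) (hx i), ?_, ?_⟩
  · have e1 := Px_cj n t (fun i => z i * x i)
    have e2 := Px_cj n (cj t x) z
    have e3 := Px_cj n t x
    rw [cj_cj] at e2
    rw [e1, hzκ, e3] at e2
    have e4 : Ps n t (fun i => z i * x i) * Px n t = κ * Px n t := by
      rw [e2]
      group
    exact mul_right_cancel e4
  · apply hFR G M Z hCF
    rw [eq_top_iff, ← hcl2, Subgroup.closure_le]
    rintro g ⟨i, hi, h⟩
    have h1 : cj t (fun i => z i * x i) i ∈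
        Subgroup.closure (en n (cj t fun i => z i * x i) ∪ Z) :=
      Subgroup.subset_closure (Or.inl (mem_en hi))
    have h2 : z i ∈ Subgroup.closure (en n (cj t fun i => z i * x i) ∪ Z) :=
      Subgroup.subset_closure (Or.inr (hz i))
    have h3 := Subgroup.mul_mem _ (Subgroup.mul_mem _ (Subgroup.inv_mem _ h2) h1) h2
    rw [h]
    have e : (z i)⁻¹ * cj t (fun i => z i * x i) i * z i = cj t x i := by
      simp only [cj]
      group
    rw [e] at h3
    exact h3

end Pool.Agent.H60.KT
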