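import Pool.Agent.H11.KT.Targets

/-!
# KT board, F_MV: an element which moves all the blocks
-/

set_option autoImplicit false

open scoped commutatorElement

namespace Pool.Agent.H60.KT

open Pool.Agent.H11.EL Pool.Agent.H11.KT

section

variable {G V : Type} [Group G] [AddCommGroup V] [DistribMulAction G V]

/-- the fixed vectors -/
def fixS (V : Type) [AddCommGroup V] [DistribMulAction G V] (b : G) : AddSubgroup V where
  carrier := {v | b • v = v}
  zero_mem' := smul_zero b
  add_mem' := by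
    intro x y hx hy
    show b • (x + y) = x + y
    rw [smul_add, show b • x = x from hx, show b • y = y from hy]
  neg_mem' := by
    intro x hx
    show b • (-x) = -x
    rw [smul_neg, show b • x = x from hx]

/-- the vectors supported on `s` -/
def supS {Ω : Type} (e : Ω → V →+ V) (s : Set Ω) : AddSubgroup V where
  carrier := {v | ∀ ω, ω ∉ s → e ω v = 0}
  zero_mem' := fun ω _ => map_zero _
  add_mem' := by
    intro x y hx hy ω hω
    rw [map_add, hx ω hω, hy ω hω, add_zero]
  neg_mem' := by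
    intro x hx ω hω
    rw [map_neg, hx ω hω, neg_zero]

lemma fix_inf_sup {Ω : Type} [Fintype Ω] [MulAction G Ω] {e : Ω → V →+ V} (he : Sys G e) (b : G)
    (s : Set Ω) (r : Ω → ℤ) (hr : ∀ ω ∈ s, r ω < r (b • ω)) : fixS V b ⊓ supS e s = ⊥ := by
  classical
  rw [eq_bot_iff]
  rintro v ⟨hv1, hv2⟩
  have hv1' : b • v = v := hv1
  rw [AddSubgroup.mem_bot]
  by_contra hv
  have hne : (Finset.univ.filter fun ω : Ω => e ω v ≠ 0).Nonempty := by
    by_contra h
    rw [Finset.not_nonempty_iff_eq_empty, Finset.filter_eq_empty_iff] at h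
    apply hv
    rw [← he.sum v]
    refine Finset.sum_eq_zero fun ω hω => ?_
    have := h hω
    push Not at this
    exact this
  obtain ⟨ω, hω, hmax⟩ := Finset.exists_max_image _ r hne
  have hω' : e ω v ≠ 0 := (Finset.mem_filter.1 hω).2
  have hs : ω ∈ s := by
    by_contra h
    exact hω' (hv2 ω h)
  have hb : e (b • ω) v ≠ 0 := by
    intro h
    have h1 := he.equ b ω v
    rw [hv1', h] at h1
    exact hω' ((smul_eq_zero_iff_eq b).1 h1)
  have h2 := hmax (b • ω) (Finset.mem_filter.2 ⟨Finset.mem_univ _, hb⟩)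
  have h3 := hr ω hs
  omega

open Classical in
/-- the part of `v` on `t` -/
noncomputable def part {Ω : Type} [Fintype Ω] (e : Ω → V →+ V) (t : Set Ω) (v : V) : V :=
  ∑ ω : Ω, if ω ∈ t then e ω v else 0

omit [Group G] [DistribMulAction G V] in
lemma part_add {Ω : Type} [Fintype Ω] (e : Ω → V →+ V) (t : Set Ω) (v : V) :
    part e t v + part e tᶜ v = ∑ ω : Ω, e ω v := by
  classical
  unfold part
  rw [← Finset.sum_add_distrib]
  refine Finset.sum_congr rfl fun ω _ => ?_
  by_cases h : ω ∈ t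
  · rw [if_pos h, if_neg (show ω ∉ tᶜ from fun h' => h' h), add_zero]
  · rw [if_neg h, if_pos (show ω ∈ tᶜ from h), zero_add]

lemma card_le_sup {Ω : Type} [Fintype Ω] [MulAction G Ω] [Finite V] {e : Ω → V →+ V}
    (he : Sys G e) (s : Set Ω) : Nat.card V ≤ Nat.card (supS e s) * Nat.card (supS e sᶜ) := by
  classical
  rw [← Nat.card_prod]
  have hmem : ∀ (t : Set Ω) (v : V), part e t v ∈ supS e t := by
    intro t v ω hω
    unfold part
    rw [map_sum]
    refine Finset.sum_eq_zero fun ω' _ => ?_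
    by_cases h : ω' ∈ t
    · rw [if_pos h]
      refine he.orth ω ω' ?_ v
      rintro rfl
      exact hω h
    · rw [if_neg h, map_zero]
  refine Nat.card_le_card_of_injective
    (fun v : V => ((⟨_, hmem s v⟩ : supS e s), (⟨_, hmem sᶜ v⟩ : supS e sᶜ))) ?_
  intro v w hvw
  have h1 := congrArg (fun x => ((x.1 : supS e s) : V)) hvw
  have h2 := congrArg (fun x => ((x.2 : supS e sᶜ) : V)) hvw
  simp only at h1 h2
  rw [← he.sum v, ← he.sum w, ← part_add e s v, ← part_add e s w, h1, h2]

end

theorem pf_MV (hIN : F_IN) : F_MV := by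
  classical
  intro G V _ _ _ _ Ω _ _ e he b hb
  set i : Ω → ℤ := fun ω => ((Fintype.equivFin Ω ω : ℕ) : ℤ) with hi
  have hinj : Function.Injective i := by
    intro x y hxy
    have h1 : ((Fintype.equivFin Ω x : ℕ) : ℤ) = ((Fintype.equivFin Ω y : ℕ) : ℤ) := hxy
    have h2 : (Fintype.equivFin Ω x : ℕ) = (Fintype.equivFin Ω y : ℕ) := by exact_mod_cast h1
    exact (Fintype.equivFin Ω).injective (Fin.ext h2)
  set s : Set Ω := {ω | i ω < i (b • ω)} with hs
  have h1 : fixS V b ⊓ supS e s = ⊥ := fix_inf_sup he b s i fun ω hω => hω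
  have h2 : fixS V b ⊓ supS e sᶜ = ⊥ := by
    refine fix_inf_sup he b sᶜ (fun ω => -i ω) fun ω hω => ?_
    have h3 : ¬ i ω < i (b • ω) := hω
    have h4 : i (b • ω) ≠ i ω := fun h => hb ω (hinj h)
    show -i ω < -i (b • ω)
    omega
  have c1 := hIN V (fixS V b) (supS e s)
  have c2 := hIN V (fixS V b) (supS e sᶜ)
  rw [h1] at c1
  rw [h2] at c2
  have c0 : Nat.card (⊥ : AddSubgroup V) = 1 := by simp
  rw [c0, mul_one] at c1 c2
  have hfc : Nat.card (fixS V b) = fc V b := rfl
  rw [hfc] at c1 c2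
  have c3 := card_le_sup he s
  have hV : 0 < Nat.card V := Nat.card_pos
  have c4 : fc V b ^ 2 * Nat.card V ≤ Nat.card V * Nat.card V := by
    calc fc V b ^ 2 * Nat.card V ≤ fc V b ^ 2 * (Nat.card (supS e s) * Nat.card (supS e sᶜ)) :=
          Nat.mul_le_mul_left _ c3
      _ = (fc V b * Nat.card (supS e s)) * (fc V b * Nat.card (supS e sᶜ)) := by ring
      _ ≤ Nat.card V * Nat.card V := Nat.mul_le_mul c1 c2
  exact Nat.le_of_mul_le_mul_right c4 hV

end Pool.Agent.H60.KT
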