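import Pool.Agent.H11.KT.Targets

/-!
# KT board, K_PR: estimate of the product for the pattern
-/

set_option autoImplicit false

open scoped commutatorElement

namespace Pool.Agent.H60.KT

open Pool.Agent.H11.EL Pool.Agent.H11.KT

lemma prod_half (f : ℕ → ℕ) (s : ℕ) :
    ∏ i ∈ Finset.range (2 * s), f (i / 2) = (∏ l ∈ Finset.range s, f l) ^ 2 := by
  induction s with
  | zero => simp
  | succ s ih =>
    have h1 : 2 * (s + 1) = 2 * s + 1 + 1 := by ring
    rw [h1, Finset.prod_range_succ, Finset.prod_range_succ, ih, Finset.prod_range_succ]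
    have h2 : (2 * s + 1) / 2 = s := by omega
    have h3 : 2 * s / 2 = s := by omega
    rw [h2, h3]
    ring

lemma prod_pattern (f : ℕ → ℕ) (s m : ℕ) (hs : 0 < s) :
    ∏ i ∈ Finset.range (2 * s * m), f (i / 2 % s) = (∏ l ∈ Finset.range s, f l) ^ (2 * m) := by
  induction m with
  | zero => simp
  | succ m ih =>
    have h1 : 2 * s * (m + 1) = 2 * s * m + 2 * s := by ring
    rw [h1, Finset.prod_range_add, ih]
    have h2 : ∏ x ∈ Finset.range (2 * s), f ((2 * s * m + x) / 2 % s) =
        ∏ x ∈ Finset.range (2 * s), f (x / 2) := by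
      refine Finset.prod_congr rfl fun x hx => ?_
      have hx' : x < 2 * s := Finset.mem_range.1 hx
      have h3 : (2 * s * m + x) / 2 = x / 2 + s * m := by
        have : 2 * s * m + x = x + 2 * (s * m) := by ring
        rw [this, Nat.add_mul_div_left _ _ (by norm_num : 0 < 2)]
      have h4 : x / 2 < s := by omega
      rw [h3, Nat.add_mul_mod_self_left, Nat.mod_eq_of_lt h4]
    rw [h2, prod_half, ← pow_add]
    congr 1

theorem pf_PR (hCI : K_CI) : K_PR := by
  intro G _ _ M Z hM hZ hle s m n c i₀ hi₀ hcz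
  have hcj : ∀ i, cz M Z (cj (pat s n) c i) = cz M Z (n (i / 2 % s)) := by
    intro i
    unfold cj
    rw [(hCI G M Z hM hZ _ _).1]
    unfold pat
    split_ifs
    · rfl
    · exact (hCI G M Z hM hZ _ (c i)).2
  rw [Finset.prod_congr rfl fun i _ => hcj i,
    prod_pattern (fun l => cz M Z (n l)) s m (by omega)]
  have hcard : Z.relIndex M * Nat.card Z = Nat.card M := by
    have h1 := Subgroup.relIndex_mul_relIndex (⊥ : Subgroup G) Z M bot_le hle
    rw [Subgroup.relIndex_bot_left, Subgroup.relIndex_bot_left] at h1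
    rw [mul_comm]
    exact h1
  have hbd : ∀ t : G, cz M Z t ≤ Nat.card M := by
    intro t
    unfold cz
    exact Nat.card_le_card_of_injective _ Subtype.val_injective
  have h1 : (∏ l ∈ Finset.range s, cz M Z (n l)) ^ 4 * Z.relIndex M ≤ Nat.card M ^ (4 * s) := by
    rw [← Finset.mul_prod_erase (Finset.range s) _ (Finset.mem_range.2 hi₀), mul_pow]
    have h2 : ∏ l ∈ (Finset.range s).erase i₀, cz M Z (n l) ≤ Nat.card M ^ (s - 1) := by
      have h3 := Finset.prod_le_pow_card ((Finset.range s).erase i₀) (fun l => cz M Z (n l))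
        (Nat.card M) fun l _ => hbd (n l)
      rwa [Finset.card_erase_of_mem (Finset.mem_range.2 hi₀), Finset.card_range] at h3
    calc cz M Z (n i₀) ^ 4 * (∏ l ∈ (Finset.range s).erase i₀, cz M Z (n l)) ^ 4 * Z.relIndex M
        ≤ (Nat.card M ^ 3 * Nat.card Z) * (Nat.card M ^ (s - 1)) ^ 4 * Z.relIndex M :=
          Nat.mul_le_mul_right _ (Nat.mul_le_mul hcz (Nat.pow_le_pow_left h2 4))
      _ = Nat.card M ^ 3 * (Z.relIndex M * Nat.card Z) * (Nat.card M ^ (s - 1)) ^ 4 := by ring
      _ = Nat.card M ^ (4 * s) := by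
          rw [hcard, ← pow_mul, ← pow_succ, ← pow_add]
          congr 1
          omega
  calc ((∏ l ∈ Finset.range s, cz M Z (n l)) ^ (2 * m)) ^ 4 * Z.relIndex M ^ (2 * m)
      = ((∏ l ∈ Finset.range s, cz M Z (n l)) ^ 4 * Z.relIndex M) ^ (2 * m) := by
        rw [mul_pow, ← pow_mul, ← pow_mul, mul_comm (2 * m) 4]
    _ ≤ (Nat.card M ^ (4 * s)) ^ (2 * m) := Nat.pow_le_pow_left h1 _
    _ = Nat.card M ^ (4 * (2 * s * m)) := by
        rw [← pow_mul]
        congr 1
        ring

end Pool.Agent.H60.KT
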